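import Pool.Agent.Lib.MP_226ef1_lc.U.H36.Tables

set_option autoImplicit false

/-! Primitive recursive enumeration of the elements of a coded template semigroup and of its
multiplication. -/

namespace Pool.Agent.Lib.MP_226ef1_lc.U.H36

section prim
variable {α β : Type} [Primcodable α] [Primcodable β]

theorem pr_filter {f : α → List β} {p : α → β → Bool} (hf : Primrec f) (hp : Primrec₂ p) :
    Primrec fun a => (f a).filter (p a) := by
  have h : ∀ a, (f a).filter (p a) = (f a).filterMap (fun b => bif p a b then some b else none) := by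
    intro a
    induction f a with
    | nil => rfl
    | cons x t ih =>
      rw [List.filter_cons, List.filterMap_cons, ih]
      cases h : p a x <;> simp
  simp only [h]
  refine Primrec.listFilterMap hf ?_
  exact Primrec.cond hp (Primrec.option_some.comp Primrec.snd) (Primrec.const none)

theorem pr_any {f : α → List β} {p : α → β → Bool} (hf : Primrec f) (hp : Primrec₂ p) :
    Primrec fun a => (f a).any (p a) := by
  have h : ∀ a, (f a).any (p a) = (f a).foldr (fun b r => p a b || r) false := by
    intro a
    induction f a with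
    | nil => rfl
    | cons x t ih => simp [ih]
  simp only [h]
  exact Primrec.list_foldr (h := fun a (x : β × Bool) => p a x.1 || x.2) hf (Primrec.const false)
    (Primrec.or.comp (hp.comp Primrec.fst (Primrec.fst.comp Primrec.snd))
    (Primrec.snd.comp Primrec.snd))

theorem pr_all {f : α → List β} {p : α → β → Bool} (hf : Primrec f) (hp : Primrec₂ p) :
    Primrec fun a => (f a).all (p a) := by
  have h : ∀ a, (f a).all (p a) = (f a).foldr (fun b r => p a b && r) true := by
    intro a
    induction f a with
    | nil => rfl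
    | cons x t ih => simp [ih]
  simp only [h]
  exact Primrec.list_foldr (h := fun a (x : β × Bool) => p a x.1 && x.2) hf (Primrec.const true)
    (Primrec.and.comp (hp.comp Primrec.fst (Primrec.fst.comp Primrec.snd))
    (Primrec.snd.comp Primrec.snd))

theorem pr_mem {f : α → ℕ} {g : α → List ℕ} (hf : Primrec f) (hg : Primrec g) :
    Primrec fun a => decide (f a ∈ g a) := by
  have h : ∀ a, decide (f a ∈ g a) = (g a).any (fun b => decide (b = f a)) := by
    intro a
    rw [Bool.eq_iff_iff]
    simp
  simp only [h]
  refine pr_any hg ?_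
  exact (Primrec.eq.decide).comp Primrec.snd (hf.comp Primrec.fst)

end prim

/-- All words of length `k` over the list `c`. -/
def words (c : List ℕ) : ℕ → List (List ℕ)
  | 0 => [[]]
  | k + 1 => (words c k).flatMap fun w => c.map fun a => a :: w

theorem mem_words {c : List ℕ} {k : ℕ} {w : List ℕ} :
    w ∈ words c k ↔ w.length = k ∧ ∀ a ∈ w, a ∈ c := by
  induction k generalizing w with
  | zero =>
    simp only [words, List.mem_singleton]
    constructor
    · rintro rfl; simp
    · rintro ⟨h, -⟩; exact List.length_eq_zero_iff.1 h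
  | succ k ih =>
    simp only [words, List.mem_flatMap, List.mem_map]
    constructor
    · rintro ⟨v, hv, a, ha, rfl⟩
      obtain ⟨h1, h2⟩ := ih.1 hv
      refine ⟨by simp [h1], ?_⟩
      intro b hb
      rcases List.mem_cons.1 hb with rfl | hb
      · exact ha
      · exact h2 b hb
    · rintro ⟨h1, h2⟩
      cases w with
      | nil => simp at h1
      | cons a v =>
        refine ⟨v, ih.2 ⟨by simpa using h1, fun b hb => h2 b (List.mem_cons_of_mem _ hb)⟩, a,
          h2 a (List.mem_cons_self), rfl⟩

theorem words_nodup {c : List ℕ} (hc : c.Nodup) (k : ℕ) : (words c k).Nodup := by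
  induction k with
  | zero => simp [words]
  | succ k ih =>
    simp only [words]
    rw [List.nodup_flatMap]
    refine ⟨fun w _ => hc.map (fun a b h => by simpa using h), ?_⟩
    refine ih.imp ?_
    intro v w hvw
    simp only [Function.onFun, List.disjoint_left, List.mem_map, not_exists, not_and]
    rintro x ⟨a, -, rfl⟩ b - h
    exact hvw (by simpa using (List.cons.inj h).2.symm)

theorem words_primrec : Primrec₂ words := by
  have h : ∀ c k, words c k = Nat.rec [[]] (fun _ ws => ws.flatMap fun w =>
      c.map fun a => a :: w) k := by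
    intro c k
    induction k with
    | zero => rfl
    | succ k ih => simp only [words]; rw [ih]
  have h' : words = fun c k => Nat.rec [[]] (fun _ ws => ws.flatMap fun w =>
      c.map fun a => a :: w) k := by
    funext c k; exact h c k
  rw [h']
  refine Primrec.nat_rec (f := fun _ : List ℕ => [([] : List ℕ)])
    (g := fun c (x : ℕ × List (List ℕ)) => x.2.flatMap fun w => c.map fun a => a :: w)
    (Primrec.const [[]]) ?_
  refine Primrec.list_flatMap (Primrec.snd.comp Primrec.snd) ?_
  refine Primrec.list_map (Primrec.fst.comp Primrec.fst) ?_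
  exact Primrec.list_cons.comp Primrec.snd (Primrec.snd.comp Primrec.fst)

/-- All sublists (as subsets) of a list. -/
def subs : List ℕ → List (List ℕ)
  | [] => [[]]
  | a :: t => subs t ++ (subs t).map (fun s => a :: s)

theorem mem_subs {s t : List ℕ} : s ∈ subs t ↔ s.Sublist t := by
  induction t generalizing s with
  | nil => simp [subs]
  | cons a t ih =>
    simp only [subs, List.mem_append, List.mem_map, List.sublist_cons_iff]
    constructor
    · rintro (h | ⟨r, hr, rfl⟩)
      · exact Or.inl (ih.1 h)
      · exact Or.inr ⟨r, rfl, ih.1 hr⟩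
    · rintro (h | ⟨r, rfl, hr⟩)
      · exact Or.inl (ih.2 h)
      · exact Or.inr ⟨r, ih.2 hr, rfl⟩

theorem subs_nodup {t : List ℕ} (ht : t.Nodup) : (subs t).Nodup := by
  induction t with
  | nil => simp [subs]
  | cons a t ih =>
    have h := List.nodup_cons.1 ht
    simp only [subs]
    rw [List.nodup_append]
    refine ⟨ih h.2, (ih h.2).map (fun x y hxy => by simpa using hxy), ?_⟩
    rintro x hx y hy rfl
    obtain ⟨r, hr, rfl⟩ := List.mem_map.1 hy
    have := mem_subs.1 hx
    exact h.1 (this.subset List.mem_cons_self)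

theorem subs_primrec : Primrec subs := by
  have h : subs = fun t => t.foldr (fun a r => r ++ r.map fun s => a :: s) [[]] := by
    funext t
    induction t with
    | nil => rfl
    | cons a t ih => simp only [subs, List.foldr_cons]; rw [ih]
  rw [h]
  refine Primrec.list_foldr (f := fun t : List ℕ => t) (g := fun _ => [([] : List ℕ)])
    (h := fun _ (x : ℕ × List (List ℕ)) => x.2 ++ x.2.map fun s => x.1 :: s)
    Primrec.id (Primrec.const [[]]) ?_
  have h2 : Primrec fun p : List ℕ × ℕ × List (List ℕ) => p.2.2 := Primrec.snd.comp Primrec.snd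
  refine Primrec.list_append.comp h2 (Primrec.list_map h2 ?_)
  exact Primrec.list_cons.comp (Primrec.fst.comp (Primrec.snd.comp Primrec.fst)) Primrec.snd

/-- A coded template: the colours are natural numbers, odd colours are odd numbers. -/
structure CT where
  /-- colours -/
  cols : List ℕ
  /-- seeds -/
  sig : List ℕ
  /-- maximal length of free words -/
  l : ℕ
  /-- bad words -/
  B : List ℕ → Bool

namespace CT
variable (T : CT)

/-- `w` has a factor in `B`. -/
def hasFac (w : List ℕ) : Bool :=
  (List.range (w.length + 1)).any fun i => (List.range (w.length + 1)).any fun j =>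
    T.B ((w.drop i).take j)

theorem hasFac_iff {w : List ℕ} : T.hasFac w = true ↔ ∃ v, v <:+: w ∧ T.B v = true := by
  unfold hasFac
  simp only [List.any_eq_true, List.mem_range]
  constructor
  · rintro ⟨i, -, j, -, h⟩
    exact ⟨_, ((List.take_prefix _ _).isInfix).trans (List.drop_suffix _ _).isInfix, h⟩
  · rintro ⟨v, ⟨a, b, rfl⟩, h⟩
    refine ⟨a.length, ?_, v.length, ?_, ?_⟩
    · simp only [List.length_append]; omega
    · simp only [List.length_append]; omega
    · rw [List.append_assoc, List.drop_left, List.take_left]; exact h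

/-- free words -/
def isFree (w : List ℕ) : Bool := !w.isEmpty && decide (w.length ≤ T.l) && !T.hasFac w

/-- seeds in a word -/
def sd (w : List ℕ) : List ℕ := T.sig.filter fun a => decide (a ∈ w)

/-- parity of a code -/
def cpar (x : ℕ × List ℕ) : ℕ := if x.1 = 3 then x.2.sum % 2 else x.1 - 1

/-- product of codes: `(0, [])` is zero, `(1 + p, s)` is `long (s, p)`, `(3, w)` is a free word -/
def cmul (x y : ℕ × List ℕ) : ℕ × List ℕ :=
  if x.1 = 0 ∨ y.1 = 0 then (0, [])
  else if x.1 = 3 ∧ y.1 = 3 ∧ T.isFree (x.2 ++ y.2) = true then (3, x.2 ++ y.2)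
  else (1 + (cpar x + cpar y) % 2, T.sd (x.2 ++ y.2))

/-- all codes of elements -/
def elems : List (ℕ × List ℕ) :=
  (0, []) :: (((subs T.sig).flatMap fun s => [(1, s), (2, s)]) ++
    (((List.range T.l).flatMap fun k => words T.cols (k + 1)).filter T.isFree).map fun w => (3, w))

theorem mem_elems {x : ℕ × List ℕ} : x ∈ T.elems ↔
    x = (0, []) ∨ ((x.1 = 1 ∨ x.1 = 2) ∧ x.2.Sublist T.sig) ∨
      (x.1 = 3 ∧ (∀ a ∈ x.2, a ∈ T.cols) ∧ T.isFree x.2 = true) := by
  obtain ⟨k, w⟩ := x
  simp only [elems, List.mem_cons, List.mem_append, List.mem_flatMap, List.mem_map,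
    List.mem_filter, List.mem_range, Prod.mk.injEq, List.not_mem_nil, or_false]
  constructor
  · rintro (h | ⟨s, hs, (⟨rfl, rfl⟩ | ⟨rfl, rfl⟩)⟩ | ⟨v, ⟨⟨j, hj, hv⟩, hf⟩, rfl, rfl⟩)
    · exact Or.inl h
    · exact Or.inr (Or.inl ⟨Or.inl rfl, mem_subs.1 hs⟩)
    · exact Or.inr (Or.inl ⟨Or.inr rfl, mem_subs.1 hs⟩)
    · exact Or.inr (Or.inr ⟨rfl, (mem_words.1 hv).2, hf⟩)
  · rintro (h | ⟨(rfl | rfl), hs⟩ | ⟨rfl, hc, hf⟩)
    · exact Or.inl h
    · exact Or.inr (Or.inl ⟨w, mem_subs.2 hs, Or.inl ⟨rfl, rfl⟩⟩)
    · exact Or.inr (Or.inl ⟨w, mem_subs.2 hs, Or.inr ⟨rfl, rfl⟩⟩)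
    · refine Or.inr (Or.inr ⟨w, ⟨⟨w.length - 1, ?_, ?_⟩, hf⟩, rfl, rfl⟩)
      · simp only [isFree, Bool.and_eq_true, Bool.not_eq_true', List.isEmpty_eq_false_iff,
          decide_eq_true_eq] at hf
        have := List.length_pos_of_ne_nil hf.1.1
        have := hf.1.2
        omega
      · simp only [isFree, Bool.and_eq_true, Bool.not_eq_true', List.isEmpty_eq_false_iff,
          decide_eq_true_eq] at hf
        have := List.length_pos_of_ne_nil hf.1.1
        exact mem_words.2 ⟨by omega, hc⟩

theorem elems_nodup (hs : T.sig.Nodup) (hc : T.cols.Nodup) : T.elems.Nodup := by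
  unfold elems
  rw [List.nodup_cons, List.nodup_append]
  refine ⟨?_, ?_, ?_, ?_⟩
  · simp
  · rw [List.nodup_flatMap]
    refine ⟨fun s _ => by simp, (subs_nodup hs).imp ?_⟩
    intro a b hab
    simp only [Function.onFun, List.disjoint_left, List.mem_cons, List.not_mem_nil, or_false]
    rintro x (rfl | rfl) (h | h) <;> simp_all
  · refine List.Nodup.map (fun a b h => by simpa using h) (List.Nodup.filter _ ?_)
    rw [List.nodup_flatMap]
    refine ⟨fun k _ => words_nodup hc _, (List.nodup_range).imp ?_⟩
    intro a b hab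
    simp only [Function.onFun, List.disjoint_left]
    intro w hw hw'
    have h1 := (mem_words.1 hw).1
    have h2 := (mem_words.1 hw').1
    omega
  · intro x hx y hy
    simp only [List.mem_flatMap, List.mem_cons, List.not_mem_nil, or_false] at hx
    obtain ⟨s, -, hx⟩ := hx
    obtain ⟨w, -, rfl⟩ := List.mem_map.1 hy
    rcases hx with rfl | rfl <;> simp

/-- The table of the coded template semigroup. -/
def table : List (List ℕ) := mkTable T.elems T.cmul

end CT

section prim2
variable {α : Type} [Primcodable α]

/-- a primitive recursive family of coded templates -/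
structure PrimCT (T : α → CT) : Prop where
  cols : Primrec fun a => (T a).cols
  sig : Primrec fun a => (T a).sig
  l : Primrec fun a => (T a).l
  B : Primrec₂ fun a w => (T a).B w

variable {T : α → CT} (h : PrimCT T)
include h

theorem hasFac_primrec : Primrec₂ fun a w => (T a).hasFac w := by
  unfold CT.hasFac
  have hl : Primrec fun p : α × List ℕ => List.range (p.2.length + 1) :=
    Primrec.list_range.comp (Primrec.succ.comp (Primrec.list_length.comp Primrec.snd))
  refine pr_any hl ?_
  refine pr_any (hl.comp Primrec.fst) ?_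
  refine h.B.comp (Primrec.fst.comp (Primrec.fst.comp Primrec.fst)) ?_
  exact Primrec.list_take.comp Primrec.snd
    (Primrec.list_drop.comp (Primrec.snd.comp Primrec.fst)
      (Primrec.snd.comp (Primrec.fst.comp Primrec.fst)))

theorem isFree_primrec : Primrec₂ fun a w => (T a).isFree w := by
  unfold CT.isFree
  have h1 : Primrec fun p : α × List ℕ => !p.2.isEmpty := by
    have : ∀ p : α × List ℕ, (!p.2.isEmpty) = decide (0 < p.2.length) := by
      rintro ⟨a, w⟩
      cases w <;> simp
    simp only [this]
    exact Primrec.nat_lt.decide.comp (Primrec.const 0) (Primrec.list_length.comp Primrec.snd)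
  refine Primrec.and.comp (Primrec.and.comp h1 ?_) (Primrec.not.comp (hasFac_primrec h))
  exact Primrec.nat_le.decide.comp (Primrec.list_length.comp Primrec.snd) (h.l.comp Primrec.fst)

theorem sd_primrec : Primrec₂ fun a w => (T a).sd w := by
  unfold CT.sd
  refine pr_filter (h.sig.comp Primrec.fst) ?_
  exact pr_mem Primrec.snd (Primrec.snd.comp Primrec.fst)

omit h in
theorem sum_primrec : Primrec (List.sum : List ℕ → ℕ) := by
  have h : (List.sum : List ℕ → ℕ) = fun t => t.foldr (fun a r => a + r) 0 := by
    funext t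
    induction t with
    | nil => rfl
    | cons a t ih => simp [ih]
  rw [h]
  exact Primrec.list_foldr (f := fun t : List ℕ => t) (g := fun _ => 0)
    (h := fun _ (x : ℕ × ℕ) => x.1 + x.2) Primrec.id (Primrec.const 0)
    (Primrec.nat_add.comp (Primrec.fst.comp Primrec.snd) (Primrec.snd.comp Primrec.snd))

omit h in
theorem cpar_primrec : Primrec CT.cpar := by
  unfold CT.cpar
  refine Primrec.ite (Primrec.eq.comp Primrec.fst (Primrec.const 3)) ?_ ?_
  · exact Primrec.nat_mod.comp (sum_primrec.comp Primrec.snd) (Primrec.const 2)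
  · exact Primrec.nat_sub.comp Primrec.fst (Primrec.const 1)

theorem cmul_primrec : Primrec₂ fun a (x : (ℕ × List ℕ) × (ℕ × List ℕ)) => (T a).cmul x.1 x.2 := by
  unfold CT.cmul
  have x1 : Primrec fun p : α × (ℕ × List ℕ) × (ℕ × List ℕ) => p.2.1.1 :=
    Primrec.fst.comp (Primrec.fst.comp Primrec.snd)
  have x2 : Primrec fun p : α × (ℕ × List ℕ) × (ℕ × List ℕ) => p.2.1.2 :=
    Primrec.snd.comp (Primrec.fst.comp Primrec.snd)
  have y1 : Primrec fun p : α × (ℕ × List ℕ) × (ℕ × List ℕ) => p.2.2.1 :=
    Primrec.fst.comp (Primrec.snd.comp Primrec.snd)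
  have y2 : Primrec fun p : α × (ℕ × List ℕ) × (ℕ × List ℕ) => p.2.2.2 :=
    Primrec.snd.comp (Primrec.snd.comp Primrec.snd)
  have hw := Primrec.list_append.comp x2 y2
  refine Primrec.ite ?_ (Primrec.const (0, [])) (Primrec.ite ?_ ?_ ?_)
  · exact (Primrec.eq.comp x1 (Primrec.const 0)).or (Primrec.eq.comp y1 (Primrec.const 0))
  · refine (Primrec.eq.comp x1 (Primrec.const 3)).and
      ((Primrec.eq.comp y1 (Primrec.const 3)).and (Primrec.eq.comp ?_ (Primrec.const true)))
    exact (isFree_primrec h).comp Primrec.fst hw
  · exact (Primrec.const 3).pair hw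
  · refine Primrec.pair ?_ ((sd_primrec h).comp Primrec.fst hw)
    refine Primrec.nat_add.comp (Primrec.const 1) (Primrec.nat_mod.comp
      (Primrec.nat_add.comp ?_ ?_) (Primrec.const 2))
    · exact cpar_primrec.comp (Primrec.fst.comp Primrec.snd)
    · exact cpar_primrec.comp (Primrec.snd.comp Primrec.snd)

theorem elems_primrec : Primrec fun a => (T a).elems := by
  unfold CT.elems
  refine Primrec.list_cons.comp (Primrec.const (0, [])) (Primrec.list_append.comp ?_ ?_)
  · refine Primrec.list_flatMap (subs_primrec.comp h.sig) ?_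
    refine Primrec.list_cons.comp ((Primrec.const 1).pair Primrec.snd)
      (Primrec.list_cons.comp ((Primrec.const 2).pair Primrec.snd) (Primrec.const []))
  · refine Primrec.list_map ?_ ((Primrec.const 3).pair Primrec.snd)
    refine pr_filter ?_ (isFree_primrec h)
    refine Primrec.list_flatMap (Primrec.list_range.comp h.l) ?_
    exact words_primrec.comp (h.cols.comp Primrec.fst) (Primrec.succ.comp Primrec.snd)

theorem table_primrec : Primrec fun a => (T a).table :=
  mkTable_primrec (cmul := fun a x => (T a).cmul x.1 x.2) (elems_primrec h) (cmul_primrec h)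

end prim2

end Pool.Agent.Lib.MP_226ef1_lc.U.H36
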