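import Mathlib

set_option autoImplicit false

/-! Multiplication tables of finite semigroups as lists of lists of numbers; the table of a
coded semigroup; transfer. -/

namespace Pool.Agent.Lib.MP_226ef1_lc.U.H36

/-- The entry in row `i` and column `j`. -/
def entry (t : List (List ℕ)) (i j : ℕ) : ℕ := (t.getD i []).getD j 0

/-- `t` is the multiplication table of a semigroup on `{0, ..., t.length - 1}`. -/
structure IsTable (t : List (List ℕ)) : Prop where
  ne : t ≠ []
  sq : ∀ r ∈ t, r.length = t.length
  lt : ∀ r ∈ t, ∀ x ∈ r, x < t.length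
  assoc : ∀ i < t.length, ∀ j < t.length, ∀ k < t.length,
    entry t (entry t i j) k = entry t i (entry t j k)

theorem IsTable.entry_lt {t : List (List ℕ)} (h : IsTable t) {i j : ℕ} (hi : i < t.length)
    (hj : j < t.length) : entry t i j < t.length := by
  have h1 : t.getD i [] ∈ t := by
    rw [List.getD_eq_getElem _ _ hi]; exact List.getElem_mem hi
  have h2 : j < (t.getD i []).length := by rw [h.sq _ h1]; exact hj
  have h3 : (t.getD i []).getD j 0 ∈ t.getD i [] := by
    rw [List.getD_eq_getElem _ _ h2]; exact List.getElem_mem h2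
  exact h.lt _ h1 _ h3

/-- The semigroup with the multiplication table `t`. -/
def Carrier (t : List (List ℕ)) (_ : IsTable t) : Type := Fin t.length

instance (t : List (List ℕ)) (h : IsTable t) : Semigroup (Carrier t h) where
  mul i j := ⟨entry t i.1 j.1, h.entry_lt i.2 j.2⟩
  mul_assoc i j k := Fin.ext (h.assoc _ i.2 _ j.2 _ k.2)

instance (t : List (List ℕ)) (h : IsTable t) : Finite (Carrier t h) :=
  inferInstanceAs (Finite (Fin t.length))

theorem Carrier.mul_val {t : List (List ℕ)} {h : IsTable t} (i j : Carrier t h) :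
    (i * j).1 = entry t i.1 j.1 := rfl

/-- The table of a coded semigroup. -/
def mkTable {E : Type} [DecidableEq E] (elems : List E) (cmul : E → E → E) : List (List ℕ) :=
  elems.map fun x => elems.map fun y => elems.idxOf (cmul x y)

section
variable {E : Type} [DecidableEq E] (elems : List E) (cmul : E → E → E)

theorem mkTable_length : (mkTable elems cmul).length = elems.length := by simp [mkTable]

theorem mkTable_entry {i j : ℕ} (hi : i < elems.length) (hj : j < elems.length) :
    entry (mkTable elems cmul) i j = elems.idxOf (cmul elems[i] elems[j]) := by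
  have h1 : (mkTable elems cmul).getD i [] =
      elems.map fun y => elems.idxOf (cmul elems[i] y) := by
    unfold mkTable
    rw [List.getD_eq_getElem _ _ (by simpa using hi), List.getElem_map]
  unfold entry
  rw [h1, List.getD_eq_getElem _ _ (by simpa using hj), List.getElem_map]

variable (S : Type) [Semigroup S] (code : S → E)

theorem mkTable_isTable [Nonempty S] (hmem : ∀ e, e ∈ elems ↔ ∃ s, code s = e)
    (hmul : ∀ x y, code (x * y) = cmul (code x) (code y)) :
    IsTable (mkTable elems cmul) := by
  have hcl : ∀ x ∈ elems, ∀ y ∈ elems, cmul x y ∈ elems := by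
    intro x hx y hy
    obtain ⟨s, rfl⟩ := (hmem _).1 hx
    obtain ⟨s', rfl⟩ := (hmem _).1 hy
    rw [← hmul]
    exact (hmem _).2 ⟨_, rfl⟩
  refine ⟨?_, ?_, ?_, ?_⟩
  · intro h0
    have : elems = [] := by
      have := congrArg List.length h0
      rw [mkTable_length] at this
      exact List.length_eq_zero_iff.1 this
    obtain ⟨s⟩ := (inferInstance : Nonempty S)
    have := (hmem (code s)).2 ⟨s, rfl⟩
    simp_all
  · intro r hr
    rw [mkTable_length]
    obtain ⟨x, _, rfl⟩ := List.mem_map.1 hr
    simp
  · intro r hr x hx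
    rw [mkTable_length]
    obtain ⟨a, ha, rfl⟩ := List.mem_map.1 hr
    obtain ⟨b, hb, rfl⟩ := List.mem_map.1 hx
    exact List.idxOf_lt_length_of_mem (hcl a ha b hb)
  · intro i hi j hj k hk
    rw [mkTable_length] at hi hj hk
    have e1 := mkTable_entry elems cmul hi hj
    have e2 := mkTable_entry elems cmul hj hk
    have m1 := hcl _ (List.getElem_mem hi) _ (List.getElem_mem hj)
    have m2 := hcl _ (List.getElem_mem hj) _ (List.getElem_mem hk)
    have l1 := List.idxOf_lt_length_of_mem m1
    have l2 := List.idxOf_lt_length_of_mem m2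
    rw [e1, e2, mkTable_entry elems cmul l1 hk, mkTable_entry elems cmul hi l2,
      List.getElem_idxOf, List.getElem_idxOf]
    congr 1
    obtain ⟨a, ha⟩ := (hmem _).1 (List.getElem_mem hi)
    obtain ⟨b, hb⟩ := (hmem _).1 (List.getElem_mem hj)
    obtain ⟨c, hc⟩ := (hmem _).1 (List.getElem_mem hk)
    rw [← ha, ← hb, ← hc, ← hmul, ← hmul, ← hmul, ← hmul, mul_assoc]

/-- The semigroup of the table is isomorphic to the coded semigroup. -/
theorem mkTable_equiv (hmem : ∀ e, e ∈ elems ↔ ∃ s, code s = e)
    (hmul : ∀ x y, code (x * y) = cmul (code x) (code y)) (hinj : Function.Injective code)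
    (hnd : elems.Nodup) (ht : IsTable (mkTable elems cmul)) :
    Nonempty (Carrier _ ht ≃* S) := by
  classical
  have hlen := mkTable_length elems cmul
  have hget : ∀ i : Carrier _ ht, i.1 < elems.length := fun i => by
    have := i.2; omega
  choose f hf using fun i : Carrier _ ht => (hmem _).1 (List.getElem_mem (hget i))
  refine ⟨⟨Equiv.ofBijective f ⟨?_, ?_⟩, ?_⟩⟩
  · intro i j hij
    have h1 := hf i
    rw [hij, hf j] at h1
    have := (List.Nodup.getElem_inj_iff hnd).1 h1
    exact Fin.ext this.symm
  · intro s
    have hs := (hmem (code s)).2 ⟨s, rfl⟩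
    have hl := List.idxOf_lt_length_of_mem hs
    let i : Carrier _ ht := (⟨elems.idxOf (code s), by omega⟩ : Fin _)
    refine ⟨i, hinj ?_⟩
    rw [hf i]
    exact List.getElem_idxOf hl
  · intro i j
    apply hinj
    show code (f (i * j)) = code (f i * f j)
    rw [hf, hmul, hf, hf]
    have h1 : (i * j).1 = elems.idxOf (cmul elems[i.1] elems[j.1]) :=
      mkTable_entry elems cmul (hget i) (hget j)
    have hm : cmul (elems[i.1]'(hget i)) (elems[j.1]'(hget j)) ∈ elems := by
      rw [← hf i, ← hf j, ← hmul]
      exact (hmem _).2 ⟨_, rfl⟩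
    have h2 : elems[(i * j).1]'(hget (i * j)) =
        elems[elems.idxOf (cmul (elems[i.1]'(hget i)) (elems[j.1]'(hget j)))]'(List.idxOf_lt_length_of_mem hm) := by
      congr 1
    rw [h2, List.getElem_idxOf]

end

/-- Primitive recursiveness of the table. -/
theorem mkTable_primrec {α E : Type} [Primcodable α] [Primcodable E] [DecidableEq E]
    {elems : α → List E} {cmul : α → E × E → E} (he : Primrec elems) (hc : Primrec₂ cmul) :
    Primrec fun a => mkTable (elems a) (fun x y => cmul a (x, y)) := by
  unfold mkTable
  refine Primrec.list_map he ?_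
  refine Primrec.list_map (he.comp Primrec.fst) ?_
  have h1 : Primrec fun p : (α × E) × E => cmul p.1.1 (p.1.2, p.2) :=
    hc.comp (Primrec.fst.comp Primrec.fst) ((Primrec.snd.comp Primrec.fst).pair Primrec.snd)
  exact Primrec.list_idxOf.comp h1 (he.comp (Primrec.fst.comp Primrec.fst))

end Pool.Agent.Lib.MP_226ef1_lc.U.H36
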